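import Mathlib
import Pool.Agent.H16.ORB.C

/-! # MP_5182ad_lc, oracle barrier: row COR (the core theorem) -/

open Classical Finset

namespace Pool.ORB

theorem cor_phi {E Nd Sg W : Type} [Fintype E] [Fintype W] [Fintype Sg] (D : Dat E Nd Sg W)
    (a : E → W) (σ : Bool) : D.Phi a (s0 E Nd Sg) σ ≤ 2 ^ D.p ∧ 0 ≤ D.Phi a (s0 E Nd Sg) σ := by
  unfold Dat.Phi
  constructor
  · have h1 : ∀ l ∈ ((s0 E Nd Sg).F σ).filter (fun l => Val D.V a l.2 ∧ Fn ((s0 E Nd Sg).ρ ∪ l.2)),
        (1 / (8 * (D.p : ℝ))) ^ l.2.card ≤ 1 := by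
      intro l hl
      have h2 := (mem_filter.1 hl).1
      have h3 : l ∈ univ.image (fun s : Sg => (s, (∅ : FS E Nd))) := h2
      obtain ⟨s, _, hs⟩ := mem_image.1 h3
      rw [← hs]
      simp
    have h4 := sum_le_card_nsmul _ _ _ h1
    refine h4.trans ?_
    rw [nsmul_eq_mul, mul_one]
    have h5 : (((s0 E Nd Sg).F σ).filter
        (fun l => Val D.V a l.2 ∧ Fn ((s0 E Nd Sg).ρ ∪ l.2))).card ≤ 2 ^ D.p := by
      refine (card_filter_le _ _).trans ?_
      have h6 : ((s0 E Nd Sg).F σ).card ≤ Fintype.card Sg := by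
        show (univ.image (fun s : Sg => (s, (∅ : FS E Nd)))).card ≤ _
        exact card_image_le
      exact h6.trans D.hS
    exact_mod_cast h5
  · apply sum_nonneg
    intro l _
    positivity

theorem cor (hG : GODStmt) (hP : PRCStmt) (hI : INVStmt) : CoreStmt := by
  intro E Nd Sg W _ _ _ D Yes No hYes hNo hext
  obtain ⟨a, ha⟩ := hG D
  by_contra hcon
  push Not at hcon
  obtain ⟨c1, c2⟩ := hcon a
  apply ha
  obtain ⟨⟨U₀, hU₀, _⟩, _⟩ := hext a ∅ (by intro f hf; simp at hf) (by intro f hf; simp at hf) (by simp)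
  obtain ⟨y₀, _⟩ := c1 U₀ hU₀
  have e1 : ∀ U, ∃ y : Sg, U ∈ Yes a → ∀ z, D.R y z (ans U) = true := by
    intro U
    by_cases hU : U ∈ Yes a
    · obtain ⟨y, hy⟩ := c1 U hU
      refine ⟨y, fun _ z => ?_⟩
      have := hy z
      simpa using this
    · exact ⟨y₀, fun h => absurd h hU⟩
  have e2 : ∀ U, ∃ z : Sg, U ∈ No a → ∀ y, D.R y z (ans U) = false := by
    intro U
    by_cases hU : U ∈ No a
    · obtain ⟨z, hz⟩ := c2 U hU
      refine ⟨z, fun _ y => ?_⟩
      have := hz y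
      simpa using this
    · exact ⟨y₀, fun h => absurd h hU⟩
  choose Y1 hY1 using e1
  choose Y2 hY2 using e2
  refine hP D a (fun σ => if σ then Yes a else No a) (fun σ U => if σ then Y1 U else Y2 U)
    ?_ ?_ ?_ (Tp D.p) (Np D.p) (s0 E Nd Sg) (hI D).1 ?_ ?_ ?_ ?_
  · intro σ U hU
    cases σ with
    | true => exact hYes a U (by simpa using hU)
    | false => exact hNo a U (by simpa using hU)
  · intro σ U hU t'
    cases σ with
    | true =>
      have hU' : U ∈ Yes a := by simpa using hU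
      have := hY1 U hU' t'
      simp [Dat.chal, this]
    | false =>
      have hU' : U ∈ No a := by simpa using hU
      have := hY2 U hU' t'
      simp [Dat.chal, this]
  · intro σ ρ h1 h2 h3
    obtain ⟨h4, h5⟩ := hext a ρ h1 h2 h3
    cases σ with
    | true => simpa using h4
    | false => simpa using h5
  · intro f hf
    have : f ∈ (∅ : FS E Nd) := hf
    simp at this
  · show (∅ : FS E Nd).card + Tp D.p * Hp D.p + Np D.p ≤ Sp D.p
    unfold Sp
    simp
  · intro σ U _ _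
    refine ⟨((if σ then Y1 U else Y2 U), ∅), ?_, rfl, by simp⟩
    show _ ∈ univ.image (fun s : Sg => (s, (∅ : FS E Nd)))
    rw [mem_image]
    exact ⟨_, mem_univ _, rfl⟩
  · obtain ⟨p1, p2⟩ := cor_phi D a true
    obtain ⟨p3, p4⟩ := cor_phi D a false
    have h1 : (5 / 8 : ℝ) ^ Tp D.p * (8 / 5) ^ Tp D.p = 1 := by
      rw [← mul_pow]
      norm_num
    rw [mul_assoc, h1, mul_one]
    calc D.Phi a (s0 E Nd Sg) true * D.Phi a (s0 E Nd Sg) false
        ≤ 2 ^ D.p * 2 ^ D.p := mul_le_mul p1 p3 p4 (by positivity)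
      _ = 4 ^ D.p := by
          rw [← mul_pow]
          norm_num

end Pool.ORB
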